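import Pool.Agent.Lib.MP_100a6c_lc.IfaceB

/-!
# Typed Boolean-valued mathematics: subsets of `ω`, nonprincipal ultrafilters, tall P-ideals

`B` is a complete Boolean algebra.  A name of a subset of `ω` is a function `a : ℕ → B`
(`a n` is the Boolean value of `n ∈ a`).
-/

universe u v w

open Cardinal Filter

namespace Pool.Agent.Lib.MP_c5d73d_lc.F

open Pool.Agent.Lib.MP_100a6c_lc

variable {B : Type u} [CompleteBooleanAlgebra B]

/-- Names of subsets of `ω`. -/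
abbrev Rl (B : Type u) : Type u := ℕ → B

/-- Boolean value of `a ⊆* b`. -/
def ssub (a b : Rl B) : B := ⨆ N, ⨅ n, (a (n + N) ⇨ b (n + N))

/-- Boolean value of `a is infinite`. -/
def infi (a : Rl B) : B := ⨅ N, ⨆ n, a (n + N)

/-- `x` is (a name for) a nonprincipal ultrafilter on `ω`; `x a` is the Boolean value of `a ∈ x`. -/
structure NU (x : Rl B → B) : Prop where
  compl : ∀ a, x aᶜ = (x a)ᶜ
  inf : ∀ a b, x (a ⊓ b) = x a ⊓ x b
  mono : ∀ a b, ssub a b ⊓ x a ≤ x b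

/-- `J` is (a name for) a tall P-ideal on `ω` (containing the finite sets). -/
structure TP (J : Rl B → B) : Prop where
  bot : J ⊥ = ⊤
  sup : ∀ a b, J a ⊓ J b ≤ J (a ⊔ b)
  mono : ∀ a b, ssub a b ⊓ J b ≤ J a
  tall : ∀ X : Rl B, ∃ Y ≤ X, infi X ≤ infi Y ⊓ J Y
  pp : ∀ a : ℕ → Rl B, (∀ n, J (a n) = ⊤) → ∃ b, J b = ⊤ ∧ ∀ n, ssub (a n) b = ⊤

/-- `U` meets every tall P-ideal at `Γ`. -/
def Unc (Γ : B) (U : Rl B → B) : Prop := ∀ J : Rl B → B, TP J → ∃ a, Γ ≤ U a ⊓ J a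

/-- `p(𝓡)`: a family of sets, indexed by `𝓡`, all of whose finite subfamilies have infinite
intersection at `Γ`, has an infinite pseudo-intersection at `Γ`. -/
def PPr (𝓡 : Type u) (B : Type u) [CompleteBooleanAlgebra B] : Prop :=
  ∀ (Γ : B) (r : 𝓡 → Rl B), (∀ s : Finset 𝓡, Γ ≤ infi (⨅ i ∈ s, r i)) →
    ∃ a : Rl B, Γ ≤ infi a ∧ ∀ i, Γ ≤ ssub a (r i)

/-- `sep(𝓡)`: a countable family and a family indexed by `𝓡`, orthogonal to each other, can be
separated. -/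
def SPr (𝓡 : Type u) (B : Type u) [CompleteBooleanAlgebra B] : Prop :=
  ∀ (c : ℕ → Rl B) (r : 𝓡 → Rl B), (∀ n i, infi (c n ⊓ r i) = ⊥) →
    ∃ e : Rl B, (∀ n, ssub (c n) e = ⊤) ∧ ∀ i, infi (e ⊓ r i) = ⊥

/-- `W` is closed under intersections of families of size `< #L`, and nonprincipal: `W` witnesses
that the cardinal `#L` is measurable (if `ℵ₀ < #L`). -/
structure Meas (L : Type u) (W : Ultrafilter L) : Prop where
  unctble : ℵ₀ < #L
  nonprincipal : ∀ x, ({x} : Set L) ∉ W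
  complete : ∀ S : Set (Set L), #S < #L → (∀ s ∈ S, s ∈ W) → ⋂₀ S ∈ W

/-! ## Typed Martin's axiom -/

/-- `B`-valued compatibility. -/
def tcomp {Q : Type u} (le : Q → Q → B) (p q : Q) : B := ⨆ s, le s p ⊓ le s q

/-- The pair `B * Q` is ccc: no uncountable family of pairs `(b, q)`, `b ≠ ⊥`, is an antichain. -/
def TCCC {Q : Type u} (le : Q → Q → B) : Prop :=
  ∀ (T : Type u) (b : T → B) (q : T → Q), (∀ t, b t ≠ ⊥) →
    (∀ t t', t ≠ t' → b t ⊓ b t' ⊓ tcomp le (q t) (q t') = ⊥) → #T ≤ ℵ₀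

/-- Typed Martin's axiom below `κ` for `B`: posets `Q` with an external underlying set of size
`< κ` and a `B`-valued ccc preorder. -/
def TMA (κ : Cardinal.{u}) (B : Type u) [CompleteBooleanAlgebra B] : Prop :=
  ∀ (Q : Type u) [Nonempty Q] (le : Q → Q → B), #Q < κ → (∀ q, le q q = ⊤) →
    (∀ p q r, le p q ⊓ le q r ≤ le p r) → TCCC le →
    ∀ (Λ : Type u) (D : Λ → Q → B), #Λ < κ → (∀ l p, ⨆ q, D l q ⊓ le q p = ⊤) →
      ∃ G : Q → B, (∀ p q, G p ⊓ le p q ≤ G q) ∧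
        (∀ p q, G p ⊓ G q ≤ ⨆ s, G s ⊓ le s p ⊓ le s q) ∧ (⨆ q, G q = ⊤) ∧
        ∀ l, ⨆ q, G q ⊓ D l q = ⊤

/-- The data produced by the iteration: `B` is a nontrivial ccc algebra with typed Martin's axiom
below the measurable cardinal `#L`, with at most `#L` names of reals, which are the `W`-limit of
small sets of names. -/
structure Model (L : Type u) (W : Ultrafilter L) (B : Type u) [CompleteBooleanAlgebra B] :
    Prop where
  nontriv : (⊥ : B) ≠ ⊤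
  ccc : CCov ℵ₀ B
  tma : TMA (#L) B
  reals : #(Rl B) ≤ #L
  filt : ∃ 𝓡 : L → Set (Rl B), (∀ i, #(𝓡 i) < #L) ∧ ∀ a, ∀ᶠ i in (W : Filter L), a ∈ 𝓡 i

end Pool.Agent.Lib.MP_c5d73d_lc.F
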