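import Pool.Agent.Lib.MP_c5d73d_lc.F.Defs
import Pool.Agent.Lib.MP_c5d73d_lc.F.TDefs
import Pool.Agent.Lib.MP_100a6c_lc.H36.Omega
import Pool.Agent.Lib.MP_100a6c_lc.Base5

/-!
# Statements of the modules about the Boolean-valued universe
-/

universe u v w

open Cardinal Filter

open scoped symmDiff

namespace Pool.Agent.Lib.MP_c5d73d_lc.F

open Pool.Agent.Lib.MP_100a6c_lc
open BName
open H36 (nn om)

section

variable {B : Type u} [CompleteBooleanAlgebra B]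

/-- The name of a subset of `ω`. -/
noncomputable def rn (a : Rl B) : BName B :=
  mk (ULift ℕ) (fun n => check (nn n.down)) fun n => a n.down

/-- The name of `P(ω)`. -/
noncomputable def Pw : BName B := mk (Rl B) rn fun _ => ⊤

/-- The name of a set of subsets of `ω`. -/
noncomputable def un (x : Rl B → B) : BName B := mk (Rl B) rn x

variable (B) in
/-- The name of `ω*`. -/
noncomputable def Star : BName B := mk {x : Rl B → B // NU x} (fun x => un x.1) fun _ => ⊤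

/-- The name of the closed set of the ultrafilters which miss `J`. -/
noncomputable def FJ (J : Rl B → B) : BName B :=
  mk {x : Rl B → B // NU x} (fun x => un x.1) fun x => ⨅ a, (J a ⊓ x.1 a)ᶜ

end

/-! ## Reals, ultrafilters, closed sets -/

/-- REALS. -/
def RealsStatement : Prop := ∀ (B : Type u) [CompleteBooleanAlgebra B],
  (∀ (a : Rl B) (n : ℕ), bmem (check (nn n)) (rn a) = a n) ∧
  (∀ a b : Rl B, beq (rn a) (rn b) = ⨅ n, (a n ⇔ b n)) ∧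
  (∀ a b : Rl B, (VB B).sub (rn a) (rn b) = ⨅ n, (a n ⇨ b n)) ∧
  (∀ z : BName B, (VB B).sub z (check om) ≤ beq z (rn fun n => bmem (check (nn n)) z)) ∧
  (∀ a : Rl B, (VB B).sub (rn a) (check om) = ⊤) ∧
  (∀ w : BName B, isOm (VB B) w = beq w (check om)) ∧
  (∀ c : BName B, isPow (VB B) c (check om) = beq c Pw)

/-- ULTRA. -/
def UltraStatement : Prop := ∀ (B : Type u) [CompleteBooleanAlgebra B],
  (∀ x : Rl B → B, NU x → ∀ a, bmem (rn a) (un x) = x a) ∧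
  (∀ x y : Rl B → B, NU x → NU y → beq (un x) (un y) = ⨅ a, (x a ⇔ y a)) ∧
  (∀ x : Rl B → B, NU x → isNPU (VB B) (check om) (un x) = ⊤) ∧
  (∀ y : BName B, isNPU (VB B) (check om) y ≤ ⨆ x : {x : Rl B → B // NU x}, beq y (un x.1)) ∧
  isStar (VB B) (check om) (Star B) = ⊤

/-- CPT: compactness of `ω*`; `J` is an ideal, `G` is (a name of) an open set of ultrafilters
containing all the ultrafilters which miss `J`. -/
def CptStatement : Prop := ∀ (B : Type u) [CompleteBooleanAlgebra B] (Γ : B) (J : Rl B → B)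
  (G : (Rl B → B) → B), J ⊥ = ⊤ → (∀ a b, J a ⊓ J b ≤ J (a ⊔ b)) →
  (∀ a b, ssub a b ⊓ J b ≤ J a) → (∀ x y, (⨅ a, x a ⇔ y a) ⊓ G x ≤ G y) →
  (∀ x, NU x → Γ ⊓ (⨅ a, (J a ⊓ x a)ᶜ) ≤ G x) →
  (∀ x, NU x → Γ ⊓ G x ≤ ⨆ a, x a ⊓ ⨅ y : {y : Rl B → B // NU y}, (y.1 a ⇨ G y.1)) →
    ∃ b, Γ ≤ J b ⊓ ⨅ y : {y : Rl B → B // NU y}, (y.1 bᶜ ⇨ G y.1)

/-- PSET. -/
def PsetStatement : Prop := ∀ (B : Type u) [CompleteBooleanAlgebra B] (J : Rl B → B), TP J →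
  isPSet (VB B) (check om) (Star B) (FJ J) = ⊤

/-- NWD. -/
def NwdStatement : Prop := ∀ (B : Type u) [CompleteBooleanAlgebra B] (J : Rl B → B), TP J →
  isNwd (VB B) (Star B) (FJ J) = ⊤

/-- COVV. -/
def CovvStatement : Prop := ∀ (B : Type u) [CompleteBooleanAlgebra B],
  (∀ U : Rl B → B, NU U → ∃ J : Rl B → B, TP J ∧ ∀ a, J a ⊓ U a = ⊥) → Cov (VB B) = ⊤

/-! ## Martin's axiom -/

/-- CMP: comparability of cardinals in `V^B`. -/
def CmpStatement : Prop := ∀ (B : Type u) [CompleteBooleanAlgebra B] (κ : Cardinal.{u})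
  (x : BName B), ℵ₀ ≤ κ → ((VB B).leCard (check κ.ord.toZFSet) x)ᶜ ≤
    ⨆ (γ : Ordinal.{u}) (_ : γ < κ.ord), (VB B).leCard x (check γ.toZFSet)

/-- TCCCV: from `isCCC` to the typed chain condition, for a family of elements closed under common
lower bounds. -/
def TcccvStatement : Prop := ∀ (B : Type u) [CompleteBooleanAlgebra B], CCov ℵ₀ B →
  ∀ (Γ : B) (P r : BName B) (Q : Type u) (p : Q → BName B), (∀ q, Γ ≤ bmem (p q) P) →
    (∀ q, Γ ≤ (VB B).rel r (p q) (p q)) → Γ ≤ isCCC (VB B) P r →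
    (∀ q q', Γ ⊓ comp (VB B) P r (p q) (p q') ≤
      ⨆ s : Q, (VB B).rel r (p s) (p q) ⊓ (VB B).rel r (p s) (p q')) →
    TCCC fun q q' => (VB B).rel r (p q) (p q') ⊔ Γᶜ

/-- Terms of the closure. -/
inductive Tm (Λ : Type u) : Type u
  | root : Tm Λ
  | ext (l : Λ) (t : Tm Λ) : Tm Λ
  | lb (s t : Tm Λ) : Tm Λ

/-- CLF: a small family of elements of the poset which is closed under common lower bounds and
extension into the dense sets `d l` (in the family `D`). -/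
def ClfStatement : Prop := ∀ (B : Type u) [CompleteBooleanAlgebra B] (Γ : B) (P r D : BName B)
  (Λ : Type u) (d : Λ → BName B), Γ ≤ isPreo (VB B) P r →
  (Γ ≤ ⨅ d, bmem d D ⇨ isDense (VB B) P r d) →
    (∀ κ : Cardinal.{u}, ℵ₀ < κ → #Λ < κ → #(Tm Λ) < κ) ∧
    ∃ p : Tm Λ → BName B, (∀ t, Γ ≤ bmem (p t) P) ∧
      (∀ l t, Γ ⊓ bmem (d l) D ≤ bmem (p (Tm.ext l t)) (d l) ⊓ (VB B).rel r (p (Tm.ext l t)) (p t)) ∧
      ∀ s t, Γ ⊓ comp (VB B) P r (p s) (p t) ≤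
        (VB B).rel r (p (Tm.lb s t)) (p s) ⊓ (VB B).rel r (p (Tm.lb s t)) (p t)

/-- MAV: Martin's axiom in `V^B`. -/
def MavStatement : Prop := ∀ (B : Type u) [CompleteBooleanAlgebra B] (κ : Cardinal.{u}),
  ℵ₀ < κ → CCov ℵ₀ B → TMA κ B → #(Rl B) ≤ κ → MA (VB B) = ⊤

/-- CHV: the continuum hypothesis fails in `V^B`. -/
def ChvStatement : Prop := ∀ (B : Type u) [CompleteBooleanAlgebra B] (κ : Cardinal.{u}),
  Order.succ ℵ₀ < κ → CCov ℵ₀ B → TMA κ B → CH (VB B) = ⊥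

/-! ## ZFC in `V^B` -/

/-- ZB1: equality, extensionality, pairing, union, power set. -/
def Zb1Statement : Prop := ∀ (B : Type u) [CompleteBooleanAlgebra B],
  (⨅ x, (VB B).eq x x) ⊓ (⨅ x, ⨅ y, (VB B).eq x y ⇨ (VB B).eq y x) ⊓
  (⨅ x, ⨅ y, ⨅ z, (VB B).eq x y ⊓ (VB B).eq y z ⇨ (VB B).eq x z) ⊓
  (⨅ x, ⨅ x', ⨅ y, ⨅ y', (VB B).eq x x' ⊓ (VB B).eq y y' ⊓ (VB B).mem x y ⇨ (VB B).mem x' y') ⊓
  (⨅ x, ⨅ y, (⨅ z, (VB B).mem z x ⇔ (VB B).mem z y) ⇨ (VB B).eq x y) ⊓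
  (⨅ a, ⨅ b, ⨆ p, (VB B).isUPair p a b) ⊓
  (⨅ x, ⨆ y, ⨅ z, (VB B).mem z y ⇔ ⨆ t, (VB B).mem t x ⊓ (VB B).mem z t) ⊓
  (⨅ x, ⨆ y, isPow (VB B) y x) = ⊤

/-- ZB2: foundation. -/
def Zb2Statement : Prop := ∀ (B : Type u) [CompleteBooleanAlgebra B],
  (⨅ x, (⨆ y, (VB B).mem y x) ⇨
    ⨆ y, (VB B).mem y x ⊓ ⨅ z, (VB B).mem z x ⇨ ((VB B).mem z y)ᶜ) = ⊤

/-- ZB3: infinity. -/
def Zb3Statement : Prop := ∀ (B : Type u) [CompleteBooleanAlgebra B],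
  (⨆ x, (⨆ y, (VB B).mem y x ⊓ isEmpty (VB B) y) ⊓
    ⨅ y, (VB B).mem y x ⇨ ⨆ z, (VB B).mem z x ⊓ isSuc (VB B) z y) = ⊤

/-- ZB4: choice. -/
def Zb4Statement : Prop := ∀ (B : Type u) [CompleteBooleanAlgebra B],
  (⨅ x, (⨅ y, (VB B).mem y x ⇨ ⨆ z, (VB B).mem z y) ⊓
      (⨅ y, ⨅ y', ⨅ z, (VB B).mem y x ⊓ (VB B).mem y' x ⊓ (VB B).mem z y ⊓ (VB B).mem z y' ⇨
        (VB B).eq y y') ⇨
    ⨆ c, ⨅ y, (VB B).mem y x ⇨ ⨆ z, ⨅ t, ((VB B).mem t c ⊓ (VB B).mem t y) ⇔ (VB B).eq t z) = ⊤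

/-- ZS. -/
def ZsepStatement : Prop := ∀ (B : Type u) [CompleteBooleanAlgebra B], separation (VB B) = ⊤

/-- ZR. -/
def ZrepStatement : Prop := ∀ (B : Type u) [CompleteBooleanAlgebra B], replacement (VB B) = ⊤

end Pool.Agent.Lib.MP_c5d73d_lc.F
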