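import Pool.Agent.Lib.MP_c5d73d_lc.F.TDefs
import Pool.Agent.Lib.MP_100a6c_lc.H1.RO

/-!
# The finite support iteration: definitions and statements of the modules of group I
-/

universe u v w

open Cardinal Filter

open scoped symmDiff

namespace Pool.Agent.Lib.MP_c5d73d_lc.F

open Pool.Agent.Lib.MP_100a6c_lc

/-! ## Forcing over a preorder given by a relation -/

/-- `p` forces that some condition of `A` is in the generic filter. -/
def Frc {P : Type u} (R : P → P → Prop) (A : Set P) (p : P) : Prop :=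
  ∀ p', R p' p → ∃ p'', R p'' p' ∧ ∃ n ∈ A, R p'' n

/-- `N` is, for the poset `(P, R)`, a name of a preorder on `C` with largest element `z` such that
the two-step iteration is ccc. -/
structure Valid {I P : Type u} (R : P → P → Prop) (C : Set I) (z : I) (N : I → I → Set P) :
    Prop where
  refl : ∀ p, ∀ u ∈ C, Frc R (N u u) p
  trans : ∀ p, ∀ u ∈ C, ∀ v ∈ C, ∀ w ∈ C, Frc R (N u v) p → Frc R (N v w) p → Frc R (N u w) p
  top : ∀ p, ∀ u ∈ C, Frc R (N u z) p
  ccc : ∀ (T : Type u) (f : T → P) (u : T → I), (∀ t, u t ∈ C) →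
    (∀ t t', t ≠ t' → ¬ ∃ p, ∃ s ∈ C, R p (f t) ∧ R p (f t') ∧ Frc R (N s (u t)) p ∧
      Frc R (N s (u t')) p) → #T ≤ ℵ₀

/-- The order of the iterand: trivial if the name is not valid. -/
def Stp {I P : Type u} (R : P → P → Prop) (C : Set I) (z : I) (N : I → I → Set P)
    (p : P) (u v : I) : Prop := Valid R C z N → Frc R (N u v) p

/-- A name of a relation on a subset `C` of `I`: `N u v` is a set of conditions. -/
structure NameI (I : Type u) where
  C : Set I
  N : I → I → Set (I → I)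

/-- Small names with countable values; `z` will be the largest element. -/
structure Good {I : Type u} (κ : Cardinal.{u}) (z : I) (ν : NameI I) : Prop where
  z_mem : z ∈ ν.C
  card : #ν.C < κ
  ctble : ∀ u v, (ν.N u v).Countable
  fin : ∀ u v, ∀ p ∈ ν.N u v, {i | p i ≠ z}.Finite
  out : ∀ u v, u ∉ ν.C ∨ v ∉ ν.C → ν.N u v = ∅

section

variable {I : Type u}

/-- The conditions of the iteration along `g`: finitely supported functions `p` with values in the
carriers. -/
def Cnd (z : I) (g : I → NameI I) : Type u :=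
  {p : I → I // {i | p i ≠ z}.Finite ∧ ∀ i, p i ∈ (g i).C}

/-- The name used at stage `i`, as a family of sets of conditions. -/
def nmAt (z : I) (g : I → NameI I) (i : I) (u v : I) : Set (Cnd z g) := {p | p.1 ∈ (g i).N u v}

variable [LinearOrder I] [WellFoundedLT I]

/-- The order at stage `α` (it only depends on the coordinates `< α`). -/
noncomputable def RL (z : I) (g : I → NameI I) : I → Cnd z g → Cnd z g → Prop :=
  WellFounded.fix (C := fun _ => Cnd z g → Cnd z g → Prop) (wellFounded_lt (α := I))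
    fun α ih p q => ∀ β (h : β < α),
      Stp (ih β h) (g β).C z (nmAt z g β) p (p.1 β) (q.1 β)

theorem RL_iff (z : I) (g : I → NameI I) (α : I) (p q : Cnd z g) :
    RL z g α p q ↔ ∀ β < α, Stp (RL z g β) (g β).C z (nmAt z g β) p (p.1 β) (q.1 β) := by
  unfold RL
  rw [WellFounded.fix_eq]

/-- The order at stage `a ≤ ∞`. -/
def RS (z : I) (g : I → NameI I) (a : WithTop I) (p q : Cnd z g) : Prop :=
  ∀ β : I, (β : WithTop I) < a → Stp (RL z g β) (g β).C z (nmAt z g β) p (p.1 β) (q.1 β)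

theorem RS_coe (z : I) (g : I → NameI I) (α : I) : RS z g (α : WithTop I) = RL z g α := by
  funext p q
  rw [eq_iff_iff, RL_iff]
  simp only [RS, WithTop.coe_lt_coe]

open Classical in
/-- `p` below `a`, `q` from `a` on. -/
noncomputable def glueF (a : WithTop I) (p q : I → I) : I → I :=
  fun β => if (β : WithTop I) < a then p β else q β

/-- `p` below `a`, `q` from `a` on. -/
noncomputable def glue {z : I} {g : I → NameI I} (a : WithTop I) (p q : Cnd z g) : Cnd z g :=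
  ⟨glueF a p.1 q.1, by
    refine ⟨(p.2.1.union q.2.1).subset fun i hi => ?_, fun i => ?_⟩
    · by_cases h : (i : WithTop I) < a
      · left; simpa [glueF, h] using hi
      · right; simpa [glueF, h] using hi
    · by_cases h : (i : WithTop I) < a
      · simp only [glueF, h, if_true]; exact p.2.2 i
      · simp only [glueF, h, if_false]; exact q.2.2 i⟩

end

/-- ORDI: basic properties of the orders. -/
def OrdiStatement : Prop := ∀ (I : Type u) [LinearOrder I] [WellFoundedLT I] (z : I)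
  (g : I → NameI I), (∀ i, z ∈ (g i).C) →
  (∀ a p, RS z g a p p) ∧
  (∀ a p q r, RS z g a p q → RS z g a q r → RS z g a p r) ∧
  (∀ a p p' q q', (∀ β : I, (β : WithTop I) < a → p.1 β = p'.1 β ∧ q.1 β = q'.1 β) →
    RS z g a p q → RS z g a p' q') ∧
  (∀ a b p q, b ≤ a → RS z g b p q → RS z g a (glue b p q) q) ∧
  (∀ a b p n, b ≤ a → (∀ β : I, b ≤ (β : WithTop I) → n.1 β = z) → RS z g b p n → RS z g a p n)

/-- DELTA: the Δ-system lemma. -/
def DeltaStatement : Prop := ∀ (T I : Type u) (f : T → Finset I), ℵ₀ < #T →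
  ∃ (S : Set T) (r : Set I), ℵ₀ < #S ∧ ∀ s ∈ S, ∀ t ∈ S, s ≠ t →
    (f s : Set I) ∩ (f t : Set I) = r

/-- The relation `R` is ccc. -/
def RCCC {P : Type u} (R : P → P → Prop) : Prop :=
  ∀ (T : Type u) (f : T → P), (∀ t t', t ≠ t' → ¬ ∃ p, R p (f t) ∧ R p (f t')) → #T ≤ ℵ₀

/-- ITCCC: the iteration is ccc at every stage. -/
def ItcccStatement : Prop := ∀ (I : Type u) [LinearOrder I] [WellFoundedLT I] (z : I)
  (g : I → NameI I), (∀ i, z ∈ (g i).C) → ∀ a, RCCC (RS z g a)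

/-- The order of the iteration, as a preorder. -/
@[reducible] noncomputable def itPre {I : Type u} [LinearOrder I] [WellFoundedLT I] (z : I)
    (g : I → NameI I) (hr : ∀ p, RS z g ⊤ p p)
    (ht : ∀ p q r, RS z g ⊤ p q → RS z g ⊤ q r → RS z g ⊤ p r) : Preorder (Cnd z g) where
  le := RS z g ⊤
  le_refl := hr
  le_trans := ht

/-! ## The regular open algebra -/

/-- The element of `RO P` given by a condition: the conditions all of whose extensions are compatible
with `p`. -/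
noncomputable def pr {P : Type u} [Preorder P] (p : P) : H1.RO P :=
  ⟨(LowerSet.Iic p)ᶜᶜ, Heyting.isRegular_compl _⟩

/-- ROAPI. -/
def RoapiStatement : Prop := ∀ (P : Type u) [Preorder P],
  (∀ (p : P) (b : H1.RO P), pr p ≤ b ↔ p ∈ (b : LowerSet P)) ∧
  (∀ (p : P) (A : Set P), pr p ≤ ⨆ n ∈ A, pr n ↔
    ∀ p' ≤ p, ∃ p'' ≤ p', ∃ n ∈ A, p'' ≤ n) ∧
  (∀ b : H1.RO P, b = ⨆ p : {p : P // pr p ≤ b}, pr p.1) ∧
  (∀ p : P, pr p ≠ ⊥) ∧
  (∀ b : H1.RO P, b ≠ ⊥ → ∃ p, pr p ≤ b) ∧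
  (∀ p q : P, p ≤ q → pr p ≤ pr q) ∧
  (RCCC (fun p q : P => p ≤ q) → CCov ℵ₀ (H1.RO P)) ∧
  (RCCC (fun p q : P => p ≤ q) → ∀ b : H1.RO P, ∃ A : Set P, A.Countable ∧ b = ⨆ n ∈ A, pr n)

/-- ITFRC: forcing at stage `α` and Boolean values, for names with conditions supported below `α`;
below `α` such values only depend on `p` below `α`. -/
def ItfrcStatement : Prop := ∀ (I : Type u) [LinearOrder I] [WellFoundedLT I] (z : I)
  (g : I → NameI I), (∀ i, z ∈ (g i).C) →
  ∀ (hr : ∀ p, RS z g ⊤ p p) (ht : ∀ p q r, RS z g ⊤ p q → RS z g ⊤ q r → RS z g ⊤ p r)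
    (α : I) (A : Set (Cnd z g)), (∀ n ∈ A, ∀ β, α ≤ β → n.1 β = z) →
    letI := itPre z g hr ht
    (∀ p : Cnd z g, Frc (RL z g α) A p ↔ pr p ≤ ⨆ n ∈ A, pr n) ∧
    ∀ p p' : Cnd z g, (∀ β < α, p.1 β = p'.1 β) → pr p ≤ ⨆ n ∈ A, pr n → pr p' ≤ ⨆ n ∈ A, pr n

/-! ## Cardinal arithmetic -/

/-- MEAS: a measurable cardinal is inaccessible and small sets are null. -/
def MeasStatement : Prop := ∀ (L : Type u) (W : Ultrafilter L), Meas L W →
  (#L).IsRegular ∧ (∀ c < #L, 2 ^ c < #L) ∧ ∀ S : Set L, #S < #L → ∀ᶠ i in (W : Filter L), i ∉ S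

/-- BOOK: bookkeeping. -/
def BookStatement : Prop := ∀ (I : Type u) [LinearOrder I] [WellFoundedLT I] (z : I),
  ℵ₀ < #I → (#I).IsRegular → (∀ c < #I, 2 ^ c < #I) → (∀ i : I, #(Set.Iio i) < #I) →
    ∃ g : I → NameI I, (∀ i, Good (#I) z (g i)) ∧
      ∀ ν : NameI I, Good (#I) z ν → ∀ β, ∃ α, β < α ∧ g α = ν

/-- ITTMA: typed Martin's axiom for the iteration. -/
def IttmaStatement : Prop := ∀ (I : Type u) [LinearOrder I] [WellFoundedLT I] (z : I)
  (g : I → NameI I), ℵ₀ < #I → (#I).IsRegular → (∀ i : I, #(Set.Iio i) < #I) →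
  (∀ i, Good (#I) z (g i)) → (∀ ν : NameI I, Good (#I) z ν → ∀ β, ∃ α, β < α ∧ g α = ν) →
  ∀ (hr : ∀ p, RS z g ⊤ p p) (ht : ∀ p q r, RS z g ⊤ p q → RS z g ⊤ q r → RS z g ⊤ p r),
    letI := itPre z g hr ht
    TMA (#I) (H1.RO (Cnd z g))

/-- ITFILT: small sets of names exhausting all names. -/
def ItfiltStatement : Prop := ∀ (I : Type u) [LinearOrder I] [WellFoundedLT I] (z : I)
  (g : I → NameI I), ℵ₀ < #I → (#I).IsRegular → (∀ c < #I, 2 ^ c < #I) →
  (∀ i : I, #(Set.Iio i) < #I) → (∀ i, Good (#I) z (g i)) →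
  ∀ (hr : ∀ p, RS z g ⊤ p p) (ht : ∀ p q r, RS z g ⊤ p q → RS z g ⊤ q r → RS z g ⊤ p r),
    letI := itPre z g hr ht
    #(Rl (H1.RO (Cnd z g))) ≤ #I ∧
    ∃ 𝓡 : I → Set (Rl (H1.RO (Cnd z g))), (∀ i, #(𝓡 i) < #I) ∧ Monotone 𝓡 ∧ ∀ a, ∃ i, a ∈ 𝓡 i

/-- ITER: the iteration. -/
def IterStatement : Prop := ∀ (L : Type u) (W : Ultrafilter L), Meas L W →
  ∃ (B : Type u) (_ : CompleteBooleanAlgebra B), Model L W B

end Pool.Agent.Lib.MP_c5d73d_lc.F
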