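import Pool.Agent.Lib.MP_c5d73d_lc.F.IfaceT
import Pool.Agent.Lib.MP_c5d73d_lc.F.IfaceW
import Pool.Agent.Lib.MP_c5d73d_lc.F.Iter

/-!
# Assembly
-/

universe u

open Cardinal Filter

namespace Pool.Agent.Lib.MP_c5d73d_lc.F

open Pool.Agent.Lib.MP_100a6c_lc

theorem zfc_of (h1 : Zb1Statement.{u}) (h2 : Zb2Statement.{u}) (h3 : Zb3Statement.{u})
    (h4 : Zb4Statement.{u}) (h5 : ZsepStatement.{u}) (h6 : ZrepStatement.{u}) (B : Type u)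
    [CompleteBooleanAlgebra B] : ZFC (VB B) = ⊤ := by
  have e1 := h1 B
  rw [inf_eq_top_iff, inf_eq_top_iff, inf_eq_top_iff, inf_eq_top_iff, inf_eq_top_iff,
    inf_eq_top_iff, inf_eq_top_iff] at e1
  obtain ⟨⟨⟨⟨⟨⟨⟨a1, a2⟩, a3⟩, a4⟩, a5⟩, a6⟩, a7⟩, a8⟩ := e1
  unfold ZFC zfcBase
  rw [inf_eq_top_iff, inf_eq_top_iff, inf_eq_top_iff, inf_eq_top_iff, inf_eq_top_iff,
    inf_eq_top_iff, inf_eq_top_iff, inf_eq_top_iff, inf_eq_top_iff, inf_eq_top_iff,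
    inf_eq_top_iff, inf_eq_top_iff]
  exact ⟨⟨⟨⟨⟨⟨⟨⟨⟨⟨⟨⟨a1, a2⟩, a3⟩, a4⟩, a5⟩, h2 B⟩, a6⟩, a7⟩, a8⟩, h3 B⟩, h4 B⟩, h5 B⟩, h6 B⟩

/-- The model. -/
theorem final_of (hI : IterStatement.{u}) (hT : CovtStatement.{u}) (hC : CovvStatement.{u})
    (hM : MavStatement.{u}) (hCH : ChvStatement.{u}) (h1 : Zb1Statement.{u})
    (h2 : Zb2Statement.{u}) (h3 : Zb3Statement.{u}) (h4 : Zb4Statement.{u})
    (h5 : ZsepStatement.{u}) (h6 : ZrepStatement.{u}) (hS : MeasStatement.{u})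
    (L : Type u) (W : Ultrafilter L) (hL : Meas L W) :
    ∃ (B : Type u) (_ : CompleteBooleanAlgebra B), (⊥ : B) ≠ ⊤ ∧ ZFC (VB B) = ⊤ ∧
      MA (VB B) = ⊤ ∧ CH (VB B) = ⊥ ∧ Cov (VB B) = ⊤ := by
  obtain ⟨B, inst, hB⟩ := hI L W hL
  refine ⟨B, inst, hB.nontriv, zfc_of h1 h2 h3 h4 h5 h6 B,
    hM B (#L) hL.unctble hB.ccc hB.tma hB.reals, hCH B (#L) ?_ hB.ccc hB.tma,
    hC B (hT B L W hL hB)⟩
  refine lt_of_le_of_lt ?_ ((hS L W hL).2.1 ℵ₀ hL.unctble)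
  exact Order.succ_le_of_lt (cantor _)

end Pool.Agent.Lib.MP_c5d73d_lc.F
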