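import Pool.Agent.Lib.MP_c5d73d_lc.F.TDefs

/-!
# Statements of the modules of the typed part
-/

universe u v w

open Cardinal Filter

open scoped symmDiff

namespace Pool.Agent.Lib.MP_c5d73d_lc.F

open Pool.Agent.Lib.MP_100a6c_lc

/-! ## Group T: the typed covering theorem -/

/-- `S` is closed under mixing along partitions of unity. -/
def MixClosed {B : Type u} [CompleteBooleanAlgebra B] {T : Type v} (S : Set (T → B)) : Prop :=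
  ∀ (ι : Type u) (d : ι → B) (f : ι → T → B), (∀ i j, i ≠ j → d i ⊓ d j = ⊥) → ⨆ i, d i = ⊤ →
    (∀ i, f i ∈ S) → (fun t => ⨆ i, d i ⊓ f i t) ∈ S

/-- MIX: maximum principle for functions `T → B` in a set closed under mixing. -/
def MixStatement : Prop := ∀ (B : Type u) [CompleteBooleanAlgebra B] (T : Type v)
  (S : Set (T → B)), S.Nonempty → MixClosed S → ∀ F : (T → B) → B,
    (∀ a b, (⨅ t, a t ⇔ b t) ⊓ F a ≤ F b) → ∃ a ∈ S, ∀ b ∈ S, F b ≤ F a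

/-- INT: no `(ω, ω)`-gaps. -/
def IntStatement : Prop := ∀ (B : Type u) [CompleteBooleanAlgebra B] (c d : ℕ → Rl B),
  (∀ m n, ssub (c m) (d n) = ⊤) → ∃ e, (∀ m, ssub (c m) e = ⊤) ∧ ∀ n, ssub e (d n) = ⊤

/-- PI: pseudo-intersection of a decreasing sequence. -/
def PiStatement : Prop := ∀ (B : Type u) [CompleteBooleanAlgebra B] (Γ : B) (Y : ℕ → Rl B),
  (∀ n, Y (n + 1) ≤ Y n) → (∀ n, Γ ≤ infi (Y n)) →
    ∃ Z ≤ Y 0, Γ ≤ infi Z ∧ ∀ n, Γ ≤ ssub Z (Y n)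

/-- SPLIT: splitting an infinite set. -/
def SplitStatement : Prop := ∀ (B : Type u) [CompleteBooleanAlgebra B] (X : Rl B),
  ∃ Y ≤ X, infi X ≤ infi Y ∧ infi X ≤ infi (X ⊓ Yᶜ)

/-- CAP: the intersection of countably many tall P-ideals. -/
def CapStatement : Prop := ∀ (B : Type u) [CompleteBooleanAlgebra B] (J : ℕ → Rl B → B),
  (∀ n, TP (J n)) → TP fun a => ⨅ n, J n a

/-- EXU: extension of a filter to a nonprincipal ultrafilter. -/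
def ExuStatement : Prop := ∀ (B : Type u) [CompleteBooleanAlgebra B] (F : Rl B → B),
  F ⊥ = ⊥ → F ⊤ = ⊤ → (∀ a b, F a ⊓ F b ≤ F (a ⊓ b)) → (∀ a b, ssub a b ⊓ F a ≤ F b) →
    ∃ x, NU x ∧ ∀ a, F a ≤ x a

/-- PART: an uncovered ultrafilter is not a P-point. -/
def PartStatement : Prop := ∀ (B : Type u) [CompleteBooleanAlgebra B] (Γ : B) (U : Rl B → B),
  NU U → Unc Γ U → ∃ P : ℕ → Rl B, (∀ j k, j ≠ k → P j ⊓ P k = ⊥) ∧
    ∀ b, Γ ⊓ U b ≤ ⨆ k, infi (b ⊓ P k)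

/-- JAL: step 2 (the ideals `J^α`); `𝓡` is the set of names `R_α`. -/
def JalStatement : Prop := ∀ (B : Type u) [CompleteBooleanAlgebra B] (Γ : B) (U : Rl B → B)
  (P : ℕ → Rl B) (𝓡 : Set (Rl B)), NU U → Unc Γ U → (∀ j k, j ≠ k → P j ⊓ P k = ⊥) →
  PPr (Option 𝓡) B → SPr 𝓡 B →
    ∃ (A : Rl B) (x : ℕ → ℕ → Rl B → B), (∀ k i, NU (x k i)) ∧ Γ ≤ U A ∧
      ∀ k, ∀ b ∈ 𝓡, Γ ⊓ (⨅ i, (x k i b)ᶜ) ⊓ infi (A ⊓ P k ⊓ b) = ⊥

/-- EXH: exhaustion in the ccc algebra `B^L / W`. -/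
def ExhStatement : Prop := ∀ (B L : Type u) [CompleteBooleanAlgebra B] (W : Ultrafilter L),
  Meas L W → CCov ℵ₀ B → ∀ 𝓕 : Set (L → B), 𝓕.Nonempty →
    (∀ c : ℕ → L → B, (∀ n, c n ∈ 𝓕) → (fun i => ⨆ n, c n i) ∈ 𝓕) →
      ∃ g ∈ 𝓕, ∀ f ∈ 𝓕, ∀ᶠ i in (W : Filter L), f i ≤ g i

/-- SETS: step 3. -/
def SetsStatement : Prop := ∀ (B L : Type u) [CompleteBooleanAlgebra B] (W : Ultrafilter L),
  Meas L W → CCov ℵ₀ B → ∀ X : L → Rl B → B, (∀ i, NU (X i)) →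
    ∃ (s : L → B) (J : Rl B → B), TP J ∧ (∀ a, ∀ᶠ i in (W : Filter L), s i ⊓ X i a ⊓ J a = ⊥) ∧
      ∀ (c : L → B) (J' : Rl B → B), TP J' →
        (∀ a, ∀ᶠ i in (W : Filter L), c i ⊓ X i a ⊓ J' a = ⊥) →
          ∀ᶠ i in (W : Filter L), c i ≤ s i

/-- The conclusion of CL1: every tall P-ideal meets the filter `Φ`. -/
def Claim1 {B L : Type u} [CompleteBooleanAlgebra B] (W : Ultrafilter L)
    (X : ℕ → L → Rl B → B) (s : ℕ → L → B) : Prop :=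
  ∀ J : Rl B → B, TP J → ∃ a, J a = ⊤ ∧ ∀ e, ∀ᶠ i in (W : Filter L), (s e i)ᶜ ≤ X e i a

/-- CL1. -/
def Cl1Statement : Prop := ∀ (B L : Type u) [CompleteBooleanAlgebra B] (W : Ultrafilter L),
  Meas L W → CCov ℵ₀ B → ∀ (X : ℕ → L → Rl B → B) (s : ℕ → L → B), (∀ e i, NU (X e i)) →
    (∀ e (c : L → B) (J : Rl B → B), TP J →
      (∀ a, ∀ᶠ i in (W : Filter L), c i ⊓ X e i a ⊓ J a = ⊥) →
        ∀ᶠ i in (W : Filter L), c i ≤ s e i) →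
    Claim1 W X s

/-- CL2: every infinite `Z` has an infinite subset `Y` which is not in `X e i` for almost all `i`,
for every `e`. -/
def Cl2Statement : Prop := ∀ (B L : Type u) [CompleteBooleanAlgebra B] (W : Ultrafilter L),
  Meas L W → CCov ℵ₀ B → ∀ X : ℕ → L → Rl B → B, (∀ e i, NU (X e i)) →
    ∀ Z : Rl B, ∃ Y ≤ Z, infi Z ≤ infi Y ∧ ∀ e, ∀ᶠ i in (W : Filter L), X e i Y = ⊥

/-- CL3: claim 3. -/
def Cl3Statement : Prop := ∀ (B L : Type u) [CompleteBooleanAlgebra B] (W : Ultrafilter L),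
  Meas L W → CCov ℵ₀ B → ∀ (X : ℕ → L → Rl B → B) (s : ℕ → L → B), (∀ e i, NU (X e i)) →
    Claim1 W X s →
    (∀ Z : Rl B, ∃ Y ≤ Z, infi Z ≤ infi Y ∧ ∀ e, ∀ᶠ i in (W : Filter L), X e i Y = ⊥) →
    ∃ Q : ℕ → Rl B, (∀ e n, ∀ᶠ i in (W : Filter L), (s e i)ᶜ ⊓ X e i (Q n) = ⊥) ∧
      ∀ b : Rl B, (∀ n, infi (b ⊓ Q n) = ⊥) →
        ∀ e, ∀ᶠ i in (W : Filter L), (s e i)ᶜ ⊓ X e i b = ⊥

/-- ST6: step 6. -/
def St6Statement : Prop := ∀ (B L : Type u) [CompleteBooleanAlgebra B] (W : Ultrafilter L),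
  Meas L W → CCov ℵ₀ B → ∀ (X : ℕ → L → Rl B → B) (s : ℕ → L → B), (∀ e i, NU (X e i)) →
    (∃ Q : ℕ → Rl B, (∀ e n, ∀ᶠ i in (W : Filter L), (s e i)ᶜ ⊓ X e i (Q n) = ⊥) ∧
      ∀ b : Rl B, (∀ n, infi (b ⊓ Q n) = ⊥) →
        ∀ e, ∀ᶠ i in (W : Filter L), (s e i)ᶜ ⊓ X e i b = ⊥) →
    ∀ U : Rl B → B, NU U →
      ∃ Q : ℕ → Rl B, (∀ e n, ∀ᶠ i in (W : Filter L), (s e i)ᶜ ⊓ X e i (Q n) = ⊥) ∧
        ∀ b : Rl B, U b ≤ ⨆ n, infi (b ⊓ Q n)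

/-- MAIN: an ultrafilter cannot meet all tall P-ideals. -/
def MainStatement : Prop := ∀ (B L : Type u) [CompleteBooleanAlgebra B] (W : Ultrafilter L),
  Meas L W → Model L W B → ∀ (Γ : B) (U : Rl B → B), NU U → Unc Γ U → Γ = ⊥

/-- COVT: the typed covering theorem. -/
def CovtStatement : Prop := ∀ (B L : Type u) [CompleteBooleanAlgebra B] (W : Ultrafilter L),
  Meas L W → Model L W B → ∀ U : Rl B → B, NU U → ∃ J : Rl B → B, TP J ∧ ∀ a, J a ⊓ U a = ⊥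

/-! ## Group M: consequences of typed Martin's axiom -/

/-- PPM. -/
def PpmStatement : Prop := ∀ (B : Type u) [CompleteBooleanAlgebra B] (κ : Cardinal.{u}),
  ℵ₀ < κ → CCov ℵ₀ B → TMA κ B → ∀ 𝓡 : Type u, #𝓡 < κ → PPr 𝓡 B

/-- SPM. -/
def SpmStatement : Prop := ∀ (B : Type u) [CompleteBooleanAlgebra B] (κ : Cardinal.{u}),
  ℵ₀ < κ → CCov ℵ₀ B → TMA κ B → ∀ 𝓡 : Type u, #𝓡 < κ → SPr 𝓡 B

/-- NEW: a new real. -/
def NewStatement : Prop := ∀ (B : Type u) [CompleteBooleanAlgebra B] (κ : Cardinal.{u}),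
  ℵ₀ < κ → CCov ℵ₀ B → TMA κ B → ∀ (T : Type u) (f : T → Rl B), #T < κ →
    ∃ a : Rl B, ∀ t, ⨅ n, (a n ⇔ f t n) = ⊥

end Pool.Agent.Lib.MP_c5d73d_lc.F
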