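import Pool.Agent.Lib.MP_c5d73d_lc.F.Assembly
import Pool.Agent.Lib.MP_c5d73d_lc.T.Defs

/-!
# Assembly, weakly compact version
-/

universe u

open Cardinal Filter

namespace Pool.Agent.Lib.MP_c5d73d_lc.F

open Pool.Agent.Lib.MP_100a6c_lc
open T (WeaklyCompact)

/-- COVTW: the typed covering theorem from a weakly compact cardinal. -/
def CovtwStatement : Prop := ∀ (B : Type u) [CompleteBooleanAlgebra B] (κ : Cardinal.{u}),
  WeaklyCompact κ → CCov ℵ₀ B → TMA κ B → #(Rl B) ≤ κ →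
    ∀ U : Rl B → B, NU U → ∃ J : Rl B → B, TP J ∧ ∀ a, J a ⊓ U a = ⊥

/-- ITERW: the iteration of length an inaccessible cardinal. -/
def IterwStatement : Prop := ∀ κ : Cardinal.{u}, κ.IsInaccessible →
  ∃ (B : Type u) (_ : CompleteBooleanAlgebra B),
    (⊥ : B) ≠ ⊤ ∧ CCov ℵ₀ B ∧ TMA κ B ∧ #(Rl B) ≤ κ

/-- The model. -/
theorem finalW_of (hI : IterwStatement.{u}) (hT : CovtwStatement.{u}) (hC : CovvStatement.{u})
    (hM : MavStatement.{u}) (hCH : ChvStatement.{u}) (h1 : Zb1Statement.{u})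
    (h2 : Zb2Statement.{u}) (h3 : Zb3Statement.{u}) (h4 : Zb4Statement.{u})
    (h5 : ZsepStatement.{u}) (h6 : ZrepStatement.{u}) (κ : Cardinal.{u}) (hκ : WeaklyCompact κ) :
    ∃ (B : Type u) (_ : CompleteBooleanAlgebra B), (⊥ : B) ≠ ⊤ ∧ ZFC (VB B) = ⊤ ∧
      MA (VB B) = ⊤ ∧ CH (VB B) = ⊥ ∧ Cov (VB B) = ⊤ := by
  obtain ⟨B, inst, h0, hccc, htma, hr⟩ := hI κ hκ.inaccessible
  have hω : ℵ₀ < κ := hκ.inaccessible.aleph0_lt
  refine ⟨B, inst, h0, zfc_of h1 h2 h3 h4 h5 h6 B, hM B κ hω hccc htma hr,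
    hCH B κ ?_ hccc htma, hC B (hT B κ hκ hccc htma hr)⟩
  refine lt_of_le_of_lt ?_ (hκ.inaccessible.isStrongLimit.two_power_lt hω)
  exact Order.succ_le_of_lt (cantor _)

end Pool.Agent.Lib.MP_c5d73d_lc.F
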