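import Pool.Agent.Lib.MP_100a6c_lc.Defs

/-!
# Martin's axiom, the continuum hypothesis, nowhere dense P-sets and ZFC in a universe

As in `Pool.Agent.Lib.MP_100a6c_lc.Defs`, all notions are written once, for an arbitrary
`Str B U`: a collection `U` with membership and equality relations with values in a complete Boolean
algebra `B`.  For `B = Prop`, `U = ZFSet` this is the usual meaning in the universe of sets; for
`VB B` it is the Boolean value of the notion in the Boolean-valued universe `V^B`.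
-/

universe u v w

open scoped symmDiff

namespace Pool.Agent.Lib.MP_c5d73d_lc.F

open Pool.Agent.Lib.MP_100a6c_lc

variable {B : Type v} {U : Type w} [CompleteBooleanAlgebra B] (S : Str B U)

/-! ## `ω`, power sets -/

/-- `x = ∅`. -/
def isEmpty (x : U) : B := ⨅ z, (S.mem z x)ᶜ

/-- `x = y ∪ {y}`. -/
def isSuc (x y : U) : B := ⨅ z, S.mem z x ⇔ (S.mem z y ⊔ S.eq z y)

/-- `w = ω`: `w` is a nonzero limit ordinal all of whose elements are zero or successors. -/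
def isOm (w : U) : B :=
  S.isOrd w ⊓ (⨆ x, S.mem x w) ⊓ (⨅ x, S.mem x w ⇨ ⨆ y, S.mem y w ⊓ S.mem x y) ⊓
    ⨅ x, S.mem x w ⇨ isEmpty S x ⊔ ⨆ y, isSuc S x y

/-- `p` is the power set of `x`. -/
def isPow (p x : U) : B := ⨅ z, S.mem z p ⇔ S.sub z x

/-- `CH`: `2^ω ≤ ω₁`. -/
def CH : B := ⨆ w, ⨆ m, ⨆ c, isOm S w ⊓ S.isSucc m w ⊓ isPow S c w ⊓ S.leCard c m

/-! ## Martin's axiom -/

/-- `(P, r)` is a nonempty preordered set; `(p, q) ∈ r` is read `p ≤ q`. -/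
def isPreo (P r : U) : B :=
  (⨆ p, S.mem p P) ⊓ (⨅ p, S.mem p P ⇨ S.rel r p p) ⊓
  ⨅ p, ⨅ q, ⨅ s, S.mem p P ⊓ S.mem q P ⊓ S.mem s P ⊓ S.rel r p q ⊓ S.rel r q s ⇨ S.rel r p s

/-- `p` and `q` are compatible: they have a common lower bound. -/
def comp (P r p q : U) : B := ⨆ s, S.mem s P ⊓ S.rel r s p ⊓ S.rel r s q

/-- `(P, r)` satisfies the countable chain condition: every set of pairwise incompatible elements is
countable. -/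
def isCCC (P r : U) : B :=
  ⨅ A, S.sub A P ⊓ (⨅ p, ⨅ q, S.mem p A ⊓ S.mem q A ⊓ (S.eq p q)ᶜ ⇨ (comp S P r p q)ᶜ) ⇨
    ⨅ w, isOm S w ⇨ S.leCard A w

/-- `D` is a dense subset of `(P, r)`. -/
def isDense (P r D : U) : B := S.sub D P ⊓ ⨅ p, S.mem p P ⇨ ⨆ q, S.mem q D ⊓ S.rel r q p

/-- `G` is a filter of `(P, r)`: nonempty, upward closed, downward directed. -/
def isFilt (P r G : U) : B :=
  S.sub G P ⊓ (⨆ p, S.mem p G) ⊓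
  (⨅ p, ⨅ q, S.mem p G ⊓ S.mem q P ⊓ S.rel r p q ⇨ S.mem q G) ⊓
  ⨅ p, ⨅ q, S.mem p G ⊓ S.mem q G ⇨ ⨆ s, S.mem s G ⊓ S.rel r s p ⊓ S.rel r s q

/-- Martin's axiom: for every ccc preorder `(P, r)` and every family `D` of dense subsets such that
`2^ω ≤ |D|` fails, some filter meets every element of `D`. -/
def MA : B :=
  ⨅ P, ⨅ r, ⨅ D, ⨅ w, ⨅ c,
    isPreo S P r ⊓ isCCC S P r ⊓ (⨅ d, S.mem d D ⇨ isDense S P r d) ⊓
      isOm S w ⊓ isPow S c w ⊓ (S.leCard c D)ᶜ ⇨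
      ⨆ G, isFilt S P r G ⊓ ⨅ d, S.mem d D ⇨ ⨆ p, S.mem p G ⊓ S.mem p d

/-! ## The space `ω* = βω \ ω` and nowhere dense P-sets -/

/-- `c = a ∩ b`. -/
def isInter (c a b : U) : B := ⨅ z, S.mem z c ⇔ (S.mem z a ⊓ S.mem z b)

/-- `c = x \ a`. -/
def isDiff (c x a : U) : B := ⨅ z, S.mem z c ⇔ (S.mem z x ⊓ (S.mem z a)ᶜ)

/-- `x` is a nonprincipal ultrafilter on `w`: a set of subsets of `w`, closed under supersets and
intersections, containing exactly one of `a`, `w \ a` for each `a ⊆ w`, and containing no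
singleton `{n}`, `n ∈ w`. -/
def isNPU (w x : U) : B :=
  (⨅ a, S.mem a x ⇨ S.sub a w) ⊓
  (⨅ a, ⨅ b, S.mem a x ⊓ S.sub a b ⊓ S.sub b w ⇨ S.mem b x) ⊓
  (⨅ a, ⨅ b, ⨅ c, S.mem a x ⊓ S.mem b x ⊓ isInter S c a b ⇨ S.mem c x) ⊓
  (⨅ a, ⨅ c, S.sub a w ⊓ isDiff S c w a ⇨ (S.mem a x ⇔ (S.mem c x)ᶜ)) ⊓
  ⨅ n, ⨅ s, S.mem n w ⊓ S.isUPair s n n ⇨ (S.mem s x)ᶜ

/-- `O = ω*`, the set of all nonprincipal ultrafilters on `w = ω`. -/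
def isStar (w O : U) : B := ⨅ x, S.mem x O ⇔ isNPU S w x

/-- `a*`-neighbourhoods: all points of `O` containing `a` satisfy `φ`. -/
def nbhd (O a : U) (φ : U → B) : B := ⨅ y, S.mem y O ⊓ S.mem a y ⇨ φ y

/-- `G` is an open subset of `O = ω*` (the sets `{y ∈ O : a ∈ y}` are a base of the topology). -/
def isOpen (O G : U) : B :=
  S.sub G O ⊓ ⨅ x, S.mem x G ⇨ ⨆ a, S.mem a x ⊓ nbhd S O a fun y => S.mem y G

/-- `F` is a closed subset of `O = ω*`. -/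
def isClosed (O F : U) : B :=
  S.sub F O ⊓ ⨅ x, S.mem x O ⊓ (S.mem x F)ᶜ ⇨ ⨆ a, S.mem a x ⊓ nbhd S O a fun y => (S.mem y F)ᶜ

/-- `F` is a P-set: `F` is closed and for every countable set `E` of open sets containing `F`, every
point of `F` is in the interior of the intersection of `E`. -/
def isPSet (w O F : U) : B :=
  isClosed S O F ⊓ ⨅ E, S.leCard E w ⊓ (⨅ G, S.mem G E ⇨ isOpen S O G ⊓ S.sub F G) ⇨
    ⨅ x, S.mem x F ⇨ ⨆ a, S.mem a x ⊓ nbhd S O a fun y => ⨅ G, S.mem G E ⇨ S.mem y G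

/-- The closed set `F ⊆ O` is nowhere dense: no basic open set is contained in `F`. -/
def isNwd (O F : U) : B :=
  ⨅ x, ⨅ a, S.mem x O ⊓ S.mem a x ⇨ ⨆ y, S.mem y O ⊓ S.mem a y ⊓ (S.mem y F)ᶜ

/-- `ω*` can be covered by nowhere dense P-sets. -/
def Cov : B :=
  ⨆ w, ⨆ O, ⨆ E, isOm S w ⊓ isStar S w O ⊓
    (⨅ F, S.mem F E ⇨ isPSet S w O F ⊓ isNwd S O F) ⊓ ⨅ x, S.mem x O ⇨ ⨆ F, S.mem F E ⊓ S.mem x F

/-! ## ZFC -/

/-- The truth value of a formula. -/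
def val : {n : ℕ} → Fml n → (Fin n → U) → B
  | _, .mem i j, v => S.mem (v i) (v j)
  | _, .eq i j, v => S.eq (v i) (v j)
  | _, .fls, _ => ⊥
  | _, .imp φ ψ, v => val φ v ⇨ val ψ v
  | _, .all φ, v => ⨅ x, val φ (Fin.cons x v)

/-- Equality is a congruence and the axioms of extensionality, foundation, pairing, union, power
set, infinity and choice hold. -/
def zfcBase : B :=
  (⨅ x, S.eq x x) ⊓ (⨅ x, ⨅ y, S.eq x y ⇨ S.eq y x) ⊓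
  (⨅ x, ⨅ y, ⨅ z, S.eq x y ⊓ S.eq y z ⇨ S.eq x z) ⊓
  (⨅ x, ⨅ x', ⨅ y, ⨅ y', S.eq x x' ⊓ S.eq y y' ⊓ S.mem x y ⇨ S.mem x' y') ⊓
  (⨅ x, ⨅ y, (⨅ z, S.mem z x ⇔ S.mem z y) ⇨ S.eq x y) ⊓
  (⨅ x, (⨆ y, S.mem y x) ⇨ ⨆ y, S.mem y x ⊓ ⨅ z, S.mem z x ⇨ (S.mem z y)ᶜ) ⊓
  (⨅ a, ⨅ b, ⨆ p, S.isUPair p a b) ⊓
  (⨅ x, ⨆ y, ⨅ z, S.mem z y ⇔ ⨆ t, S.mem t x ⊓ S.mem z t) ⊓
  (⨅ x, ⨆ y, isPow S y x) ⊓
  (⨆ x, (⨆ y, S.mem y x ⊓ isEmpty S y) ⊓ ⨅ y, S.mem y x ⇨ ⨆ z, S.mem z x ⊓ isSuc S z y) ⊓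
  ⨅ x, (⨅ y, S.mem y x ⇨ ⨆ z, S.mem z y) ⊓
      (⨅ y, ⨅ y', ⨅ z, S.mem y x ⊓ S.mem y' x ⊓ S.mem z y ⊓ S.mem z y' ⇨ S.eq y y') ⇨
    ⨆ c, ⨅ y, S.mem y x ⇨ ⨆ z, ⨅ t, (S.mem t c ⊓ S.mem t y) ⇔ S.eq t z

/-- The axiom schema of separation (comprehension). -/
def separation : B :=
  ⨅ n : ℕ, ⨅ φ : Fml (n + 1), ⨅ v : Fin n → U, ⨅ x, ⨆ y, ⨅ z,
    S.mem z y ⇔ (S.mem z x ⊓ val S φ (Fin.cons z v))

/-- The axiom schema of replacement. -/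
def replacement : B :=
  ⨅ n : ℕ, ⨅ φ : Fml (n + 2), ⨅ v : Fin n → U, ⨅ x,
    (⨅ s, S.mem s x ⇨ ⨆ t, ⨅ z, val S φ (Fin.cons z (Fin.cons s v)) ⇔ S.eq z t) ⇨
      ⨆ y, ⨅ z, S.mem z y ⇔ ⨆ s, S.mem s x ⊓ val S φ (Fin.cons z (Fin.cons s v))

/-- All the axioms of ZFC hold. -/
def ZFC : B := zfcBase S ⊓ separation S ⊓ replacement S

end Pool.Agent.Lib.MP_c5d73d_lc.F
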