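import Pool.Agent.Lib.MP_c5d73d_lc.F.AssemblyW
import Pool.Agent.Lib.MP_c5d73d_lc.F.H4.Covtw
import Pool.Agent.Lib.MP_c5d73d_lc.F.H4.Iterw
import Pool.Agent.Lib.MP_c5d73d_lc.F.H5.Ordi
import Pool.Agent.Lib.MP_c5d73d_lc.F.H5.Delta
import Pool.Agent.Lib.MP_c5d73d_lc.F.H7.Mav
import Pool.Agent.Lib.MP_c5d73d_lc.F.H8.New
import Pool.Agent.Lib.MP_c5d73d_lc.F.H8.Zb1
import Pool.Agent.Lib.MP_c5d73d_lc.F.H30.Covv
import Pool.Agent.Lib.MP_c5d73d_lc.F.H30.Cpt
import Pool.Agent.Lib.MP_c5d73d_lc.F.H30.Pset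
import Pool.Agent.Lib.MP_c5d73d_lc.F.H35.Ittma
import Pool.Agent.Lib.MP_c5d73d_lc.F.H36.Reals
import Pool.Agent.Lib.MP_c5d73d_lc.F.H36.Ultra
import Pool.Agent.Lib.MP_c5d73d_lc.F.H40.Itccc
import Pool.Agent.Lib.MP_c5d73d_lc.F.H62.Itfrc
import Pool.Agent.Lib.MP_c5d73d_lc.F.H62.Roapi
import Pool.Agent.Lib.MP_c5d73d_lc.F.H64.Zf
import Pool.Agent.Lib.MP_c5d73d_lc.F.H68.Cmp
import Pool.Agent.Lib.MP_c5d73d_lc.F.H75.Clf
import Pool.Agent.Lib.MP_c5d73d_lc.F.H75.Tcccv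
import Pool.Agent.Lib.MP_c5d73d_lc.F.H80.Nwd
import Pool.Agent.Lib.MP_c5d73d_lc.F.H80.Los
import Pool.Agent.Lib.MP_c5d73d_lc.F.H81.Book
import Pool.Agent.Lib.MP_c5d73d_lc.F.H84.CHV
import Pool.Agent.Lib.MP_c5d73d_lc.F.H90.Exu
import Pool.Agent.Lib.MP_c5d73d_lc.F.H90.Mix

/-!
# Final assembly
-/

universe u

open Cardinal

namespace Pool.Agent.Lib.MP_c5d73d_lc.F

open Pool.Agent.Lib.MP_100a6c_lc
open T (WeaklyCompact)

/-- A weakly compact cardinal yields a complete Boolean algebra `B` such that ZFC, Martin's axiom,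
the failure of the continuum hypothesis and the covering of `ω*` by nowhere dense P-sets hold in the
Boolean-valued universe `V^B`. -/
theorem boolean_model (κ : Cardinal.{u}) (hκ : WeaklyCompact κ) :
    ∃ (B : Type u) (_ : CompleteBooleanAlgebra B), (⊥ : B) ≠ ⊤ ∧ ZFC (VB B) = ⊤ ∧
      MA (VB B) = ⊤ ∧ CH (VB B) = ⊥ ∧ Cov (VB B) = ⊤ := by
  have hexu : ExuStatement.{u} := H90.exu
  have hultra : UltraStatement.{u} := H36.ultra hexu
  have hreals : RealsStatement.{u} := H36.reals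
  have hcpt : CptStatement.{u} := H30.cpt hexu H90.mix
  have hpset : PsetStatement.{u} := H30.pset hultra hcpt
  have hnwd : NwdStatement.{u} := H80.nwd hultra hexu
  have hcovv : CovvStatement.{u} := H30.covv hreals hultra hpset hnwd
  have hmav : MavStatement.{u} := H7.mav hreals H68.cmp (H75.tcccv hreals) H75.clf
  have hchv : ChvStatement.{u} := H84.chv hreals H8.new
  have hitccc : ItcccStatement.{u} := H40.itccc H5.ordi H5.delta
  have hitfrc : ItfrcStatement.{u} := H62.itfrc H5.ordi H62.roapi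
  have hittma : IttmaStatement.{u} := H35.ittma H5.ordi hitccc H62.roapi hitfrc
  have hiter : IterwStatement.{u} := H4.iterw H5.ordi hitccc H62.roapi H81.book hittma
  exact finalW_of hiter H4.covtw hcovv hmav hchv H8.zb1 H8.zb2 H64.zb3 H64.zb4 H64.zsep H64.zrep κ hκ

end Pool.Agent.Lib.MP_c5d73d_lc.F
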